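import Mathlib
import Pool.Agent.Lib.MP_21c19e_al.LogIndex

/-!
# Zariski-dense subgroups of SL2(Q) without finite quotients: confined subgroups

Let `H` be a Zariski-dense subgroup of `SL2(Q)` without nontrivial finite quotients (the hypotheses
are stated exactly as in the problem), and let `Λ` be a subgroup of finite index of `SL2(Z)`.

1. If there is a finite set `F` of matrices of `SL2(Q)` different from `±1` such that every conjugate
`δ H δ⁻¹`, `δ ∈ Λ`, meets `F` (that is, `H` is confined by `Λ`), then `H` is all of `SL2(Q)`.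
2. The same holds if the finite set may grow with the conjugating matrix: it is enough that for some
`A` there are arbitrarily large `n` such that for every `δ ∈ Λ` with entries at most `2 ^ n` in
absolute value the group `δ H δ⁻¹` contains a matrix `p ≠ ±1` whose entries have numerators and
denominators at most `n ^ A`.
-/

set_option autoImplicit false

namespace Pool.Agent.Results.MP_21c19e_al.ConfinedArithmetic

theorem result :
    ∀ H : Subgroup (Matrix.SpecialLinearGroup (Fin 2) ℚ),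
      (∀ p : MvPolynomial (Fin 2 × Fin 2) ℚ,
        (∀ g ∈ H, MvPolynomial.eval
            (fun ij : Fin 2 × Fin 2 => (g : Matrix (Fin 2) (Fin 2) ℚ) ij.1 ij.2) p = 0) →
        ∀ g : Matrix.SpecialLinearGroup (Fin 2) ℚ, MvPolynomial.eval
            (fun ij : Fin 2 × Fin 2 => (g : Matrix (Fin 2) (Fin 2) ℚ) ij.1 ij.2) p = 0) →
      (∀ N : Subgroup ↥H, N.Normal → N.FiniteIndex → N = ⊤) →
      ∀ Λ : Subgroup (Matrix.SpecialLinearGroup (Fin 2) ℤ), Λ.FiniteIndex →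
      ((∃ F : Set (Matrix.SpecialLinearGroup (Fin 2) ℚ), F.Finite ∧ 1 ∉ F ∧ -1 ∉ F ∧
        ∀ δ ∈ Λ, ∃ h ∈ H, Matrix.SpecialLinearGroup.map (Int.castRingHom ℚ) δ * h *
          (Matrix.SpecialLinearGroup.map (Int.castRingHom ℚ) δ)⁻¹ ∈ F) →
        H = ⊤) ∧
      ((∃ A : ℕ, ∀ N : ℕ, ∃ n : ℕ, N ≤ n ∧ ∀ δ ∈ Λ,
        (∀ i j : Fin 2, |(δ : Matrix (Fin 2) (Fin 2) ℤ) i j| ≤ 2 ^ n) →
        ∃ h ∈ H, h ≠ 1 ∧ h ≠ -1 ∧ ∀ i j : Fin 2,
          |(((Matrix.SpecialLinearGroup.map (Int.castRingHom ℚ) δ * h *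
            (Matrix.SpecialLinearGroup.map (Int.castRingHom ℚ) δ)⁻¹ :
              Matrix.SpecialLinearGroup (Fin 2) ℚ) : Matrix (Fin 2) (Fin 2) ℚ) i j).num| ≤
            ((n ^ A : ℕ) : ℤ) ∧
          (((Matrix.SpecialLinearGroup.map (Int.castRingHom ℚ) δ * h *
            (Matrix.SpecialLinearGroup.map (Int.castRingHom ℚ) δ)⁻¹ :
              Matrix.SpecialLinearGroup (Fin 2) ℚ) : Matrix (Fin 2) (Fin 2) ℚ) i j).den ≤
            n ^ A) →
        H = ⊤) := by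
  intro H hZ hq Λ hΛ
  have main : (∃ A : ℕ, ∀ N : ℕ, ∃ n : ℕ, N ≤ n ∧ ∀ δ ∈ Λ,
        (∀ i j : Fin 2, |(δ : Matrix (Fin 2) (Fin 2) ℤ) i j| ≤ 2 ^ n) →
        ∃ h ∈ H, h ≠ 1 ∧ h ≠ -1 ∧ ∀ i j : Fin 2,
          |(((Matrix.SpecialLinearGroup.map (Int.castRingHom ℚ) δ * h *
            (Matrix.SpecialLinearGroup.map (Int.castRingHom ℚ) δ)⁻¹ :
              Matrix.SpecialLinearGroup (Fin 2) ℚ) : Matrix (Fin 2) (Fin 2) ℚ) i j).num| ≤
            ((n ^ A : ℕ) : ℤ) ∧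
          (((Matrix.SpecialLinearGroup.map (Int.castRingHom ℚ) δ * h *
            (Matrix.SpecialLinearGroup.map (Int.castRingHom ℚ) δ)⁻¹ :
              Matrix.SpecialLinearGroup (Fin 2) ℚ) : Matrix (Fin 2) (Fin 2) ℚ) i j).den ≤
            n ^ A) → H = ⊤ := by
    rintro ⟨A, hA⟩
    refine Pool.Agent.MP_21c19e_al.Conf.top_of_loghypL H hZ hq Λ ⟨A, fun N => ?_⟩
    obtain ⟨n, hn, h⟩ := hA N
    refine ⟨n, hn, fun δ hδ hb => ?_⟩
    obtain ⟨h0, h0H, h1, h2, h3⟩ := h δ hδ hb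
    set D := Matrix.SpecialLinearGroup.map (Int.castRingHom ℚ) δ with hD
    refine ⟨D * h0 * D⁻¹, ?_, ?_, h3, ?_⟩
    · intro e
      apply h1
      have : h0 = D⁻¹ * (D * h0 * D⁻¹) * D := by group
      rw [this, e]; group
    · intro e
      apply h2
      have : h0 = D⁻¹ * (D * h0 * D⁻¹) * D := by group
      rw [this, e]
      simp
    · have e : D⁻¹ * (D * h0 * D⁻¹) * D = h0 := by group
      change D⁻¹ * (D * h0 * D⁻¹) * D ∈ H
      rw [e]; exact h0H
  refine ⟨?_, main⟩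
  rintro ⟨F, hF, hF1, hF2, h⟩
  apply main
  -- a common bound for the heights in F
  have : ∃ B : ℕ, ∀ p ∈ F, ∀ i j : Fin 2,
      |((p : Matrix (Fin 2) (Fin 2) ℚ) i j).num| ≤ (B : ℤ) ∧
        ((p : Matrix (Fin 2) (Fin 2) ℚ) i j).den ≤ B := by
    classical
    let w : Matrix.SpecialLinearGroup (Fin 2) ℚ → ℕ := fun p => ∑ i : Fin 2, ∑ j : Fin 2,
      (((p : Matrix (Fin 2) (Fin 2) ℚ) i j).num.natAbs +
        ((p : Matrix (Fin 2) (Fin 2) ℚ) i j).den)
    refine ⟨∑ p ∈ hF.toFinset, w p, fun q hq' i j => ?_⟩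
    have h1 : w q ≤ ∑ p ∈ hF.toFinset, w p :=
      Finset.single_le_sum (f := w) (fun _ _ => Nat.zero_le _) (hF.mem_toFinset.mpr hq')
    have h2 : ((q : Matrix (Fin 2) (Fin 2) ℚ) i j).num.natAbs +
        ((q : Matrix (Fin 2) (Fin 2) ℚ) i j).den ≤ w q := by
      refine le_trans ?_ (Finset.single_le_sum (f := fun i : Fin 2 => ∑ j : Fin 2,
        (((q : Matrix (Fin 2) (Fin 2) ℚ) i j).num.natAbs +
          ((q : Matrix (Fin 2) (Fin 2) ℚ) i j).den)) (fun _ _ => Nat.zero_le _)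
          (Finset.mem_univ i))
      exact Finset.single_le_sum (f := fun j : Fin 2 =>
        (((q : Matrix (Fin 2) (Fin 2) ℚ) i j).num.natAbs +
          ((q : Matrix (Fin 2) (Fin 2) ℚ) i j).den)) (fun _ _ => Nat.zero_le _)
          (Finset.mem_univ j)
    constructor
    · rw [Int.abs_eq_natAbs]
      exact_mod_cast (by omega : ((q : Matrix (Fin 2) (Fin 2) ℚ) i j).num.natAbs ≤
        ∑ p ∈ hF.toFinset, w p)
    · omega
  obtain ⟨B, hB⟩ := this
  refine ⟨B, fun N => ⟨max N 2, le_max_left _ _, fun δ hδ _ => ?_⟩⟩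
  obtain ⟨h0, h0H, hp⟩ := h δ hδ
  have hBn : B ≤ (max N 2) ^ B :=
    le_trans (Nat.lt_two_pow_self).le (Nat.pow_le_pow_left (le_max_right _ _) _)
  refine ⟨h0, h0H, ?_, ?_, fun i j => ?_⟩
  · rintro rfl
    apply hF1
    simpa using hp
  · rintro rfl
    apply hF2
    simpa using hp
  · obtain ⟨a, b⟩ := hB _ hp i j
    exact ⟨le_trans a (by exact_mod_cast hBn), le_trans b hBn⟩

end Pool.Agent.Results.MP_21c19e_al.ConfinedArithmetic
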