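import Mathlib
import Pool.Agent.Lib.MP_21c19e_al.RadMain

/-!
# Zariski-dense subgroups of SL2(Q) without finite quotients: subgroups confined by the Borel group

Let `H` be a Zariski-dense subgroup of `SL2(Q)` without nontrivial finite quotients (the hypotheses
are stated exactly as in the problem).

1. If there is a finite set `F` of matrices of `SL2(Q)` different from `±1` such that every conjugate
`b H b⁻¹`, `b` upper triangular, meets `F`, then `H` is all of `SL2(Q)`.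
2. It is enough that for arbitrarily large `T` every `b H b⁻¹`, `b` upper triangular with numerators
and denominators at most `T ^ 20`, contains a matrix `≠ ±1` with numerators and denominators at
most `T`.
3. More precisely: if `H` is proper and `T` is large, then for all but at most `300 * T ^ 28` of the
`T ^ 29` upper triangular matrices `b = (T^10/s, j/(T^10*s); 0, s/T^10)`, `1 ≤ s ≤ T ^ 9`,
`0 ≤ j < T ^ 20`, the group `b H b⁻¹` contains no element except `±1` whose entries all have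
numerators and denominators at most `T`.
-/

set_option autoImplicit false

namespace Pool.Agent.Results.MP_21c19e_al.ConfinedBorel

theorem result :
    ∀ H : Subgroup (Matrix.SpecialLinearGroup (Fin 2) ℚ),
      (∀ p : MvPolynomial (Fin 2 × Fin 2) ℚ,
        (∀ g ∈ H, MvPolynomial.eval
            (fun ij : Fin 2 × Fin 2 => (g : Matrix (Fin 2) (Fin 2) ℚ) ij.1 ij.2) p = 0) →
        ∀ g : Matrix.SpecialLinearGroup (Fin 2) ℚ, MvPolynomial.eval
            (fun ij : Fin 2 × Fin 2 => (g : Matrix (Fin 2) (Fin 2) ℚ) ij.1 ij.2) p = 0) →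
      (∀ N : Subgroup ↥H, N.Normal → N.FiniteIndex → N = ⊤) →
      ((∃ F : Set (Matrix.SpecialLinearGroup (Fin 2) ℚ), F.Finite ∧ 1 ∉ F ∧ -1 ∉ F ∧
        ∀ b : Matrix.SpecialLinearGroup (Fin 2) ℚ, (b : Matrix (Fin 2) (Fin 2) ℚ) 1 0 = 0 →
          ∃ h ∈ H, b * h * b⁻¹ ∈ F) →
        H = ⊤) ∧
      ((∀ N : ℕ, ∃ T : ℕ, N ≤ T ∧
        ∀ b : Matrix.SpecialLinearGroup (Fin 2) ℚ, (b : Matrix (Fin 2) (Fin 2) ℚ) 1 0 = 0 →
          (∀ i j : Fin 2, |((b : Matrix (Fin 2) (Fin 2) ℚ) i j).num| ≤ ((T ^ 20 : ℕ) : ℤ) ∧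
            ((b : Matrix (Fin 2) (Fin 2) ℚ) i j).den ≤ T ^ 20) →
          ∃ h ∈ H, h ≠ 1 ∧ h ≠ -1 ∧
            ∀ i j : Fin 2,
              |(((b * h * b⁻¹ : Matrix.SpecialLinearGroup (Fin 2) ℚ) :
                Matrix (Fin 2) (Fin 2) ℚ) i j).num| ≤ (T : ℤ) ∧
              (((b * h * b⁻¹ : Matrix.SpecialLinearGroup (Fin 2) ℚ) :
                Matrix (Fin 2) (Fin 2) ℚ) i j).den ≤ T) →
        H = ⊤) ∧
      (H ≠ ⊤ →
        ∃ T₀ : ℕ, ∀ T : ℕ, T₀ ≤ T →
          Set.ncard {t : ℕ × ℕ | 1 ≤ t.1 ∧ t.1 ≤ T ^ 9 ∧ t.2 < T ^ 20 ∧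
            ∃ b : Matrix.SpecialLinearGroup (Fin 2) ℚ,
              (b : Matrix (Fin 2) (Fin 2) ℚ) =
                !![(T : ℚ) ^ 10 / t.1, (t.2 : ℚ) / ((T : ℚ) ^ 10 * t.1);
                  0, (t.1 : ℚ) / (T : ℚ) ^ 10] ∧
              ∃ h ∈ H, h ≠ 1 ∧ h ≠ -1 ∧
                ∀ i j : Fin 2,
                  |(((b * h * b⁻¹ : Matrix.SpecialLinearGroup (Fin 2) ℚ) :
                    Matrix (Fin 2) (Fin 2) ℚ) i j).num| ≤ (T : ℤ) ∧
                  (((b * h * b⁻¹ : Matrix.SpecialLinearGroup (Fin 2) ℚ) :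
                    Matrix (Fin 2) (Fin 2) ℚ) i j).den ≤ T} ≤ 300 * T ^ 28) := by
  intro H hZ hq
  have h3 := fun hne => Pool.Agent.MP_21c19e_al.Conf.rad_main H hZ hq hne
  have h2 : (∀ N : ℕ, ∃ T : ℕ, N ≤ T ∧
        ∀ b : Matrix.SpecialLinearGroup (Fin 2) ℚ, (b : Matrix (Fin 2) (Fin 2) ℚ) 1 0 = 0 →
          (∀ i j : Fin 2, |((b : Matrix (Fin 2) (Fin 2) ℚ) i j).num| ≤ ((T ^ 20 : ℕ) : ℤ) ∧
            ((b : Matrix (Fin 2) (Fin 2) ℚ) i j).den ≤ T ^ 20) →
          ∃ h ∈ H, h ≠ 1 ∧ h ≠ -1 ∧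
            ∀ i j : Fin 2,
              |(((b * h * b⁻¹ : Matrix.SpecialLinearGroup (Fin 2) ℚ) :
                Matrix (Fin 2) (Fin 2) ℚ) i j).num| ≤ (T : ℤ) ∧
              (((b * h * b⁻¹ : Matrix.SpecialLinearGroup (Fin 2) ℚ) :
                Matrix (Fin 2) (Fin 2) ℚ) i j).den ≤ T) → H = ⊤ := by
    intro hyp
    by_contra hne
    obtain ⟨T₀, hT₀⟩ := h3 hne
    obtain ⟨T, hT, hb⟩ := hyp (max T₀ 301)
    have hc := hT₀ T (le_trans (le_max_left _ _) hT)
    have hT301 : 301 ≤ T := le_trans (le_max_right _ _) hT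
    have hTpos : 0 < T := by omega
    have hTq : (T : ℚ) ≠ 0 := by exact_mod_cast hTpos.ne'
    -- the set is the full box
    have hsub : ((Finset.Icc 1 (T ^ 9) ×ˢ Finset.range (T ^ 20) : Finset (ℕ × ℕ)) : Set (ℕ × ℕ)) ⊆
        {t : ℕ × ℕ | 1 ≤ t.1 ∧ t.1 ≤ T ^ 9 ∧ t.2 < T ^ 20 ∧
            ∃ b : Matrix.SpecialLinearGroup (Fin 2) ℚ,
              (b : Matrix (Fin 2) (Fin 2) ℚ) =
                !![(T : ℚ) ^ 10 / t.1, (t.2 : ℚ) / ((T : ℚ) ^ 10 * t.1);
                  0, (t.1 : ℚ) / (T : ℚ) ^ 10] ∧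
              ∃ h ∈ H, h ≠ 1 ∧ h ≠ -1 ∧
                ∀ i j : Fin 2,
                  |(((b * h * b⁻¹ : Matrix.SpecialLinearGroup (Fin 2) ℚ) :
                    Matrix (Fin 2) (Fin 2) ℚ) i j).num| ≤ (T : ℤ) ∧
                  (((b * h * b⁻¹ : Matrix.SpecialLinearGroup (Fin 2) ℚ) :
                    Matrix (Fin 2) (Fin 2) ℚ) i j).den ≤ T} := by
      rintro ⟨s, j⟩ hsj
      rw [Finset.mem_coe, Finset.mem_product, Finset.mem_Icc, Finset.mem_range] at hsj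
      obtain ⟨⟨hs1, hs9⟩, hj⟩ := hsj
      have hs1' : 1 ≤ s := hs1
      have hs9' : s ≤ T ^ 9 := hs9
      have hj' : j < T ^ 20 := hj
      have hspos : 0 < s := hs1'
      have hsq : (s : ℚ) ≠ 0 := by exact_mod_cast hspos.ne'
      refine ⟨hs1', hs9', hj', ?_⟩
      let b : Matrix.SpecialLinearGroup (Fin 2) ℚ :=
        ⟨!![(T : ℚ) ^ 10 / s, (j : ℚ) / ((T : ℚ) ^ 10 * s); 0, (s : ℚ) / (T : ℚ) ^ 10], by
          rw [Matrix.det_fin_two_of]; field_simp; ring⟩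
      refine ⟨b, rfl, hb b rfl ?_⟩
      -- heights of b
      have e10 : T ^ 10 ≤ T ^ 20 := Nat.pow_le_pow_right hTpos (by norm_num)
      have e9 : T ^ 9 ≤ T ^ 20 := Nat.pow_le_pow_right hTpos (by norm_num)
      have e19 : T ^ 10 * s ≤ T ^ 20 := by
        calc T ^ 10 * s ≤ T ^ 10 * T ^ 9 := Nat.mul_le_mul_left _ hs9'
          _ = T ^ 19 := by ring
          _ ≤ T ^ 20 := Nat.pow_le_pow_right hTpos (by norm_num)
      have e1 : 1 ≤ T ^ 20 := Nat.one_le_pow _ _ hTpos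
      have key : ∀ a c : ℕ, 0 < c → a ≤ T ^ 20 → c ≤ T ^ 20 →
          |((a : ℚ) / (c : ℚ)).num| ≤ ((T ^ 20 : ℕ) : ℤ) ∧ ((a : ℚ) / (c : ℚ)).den ≤ T ^ 20 := by
        intro a c hc0 ha hc'
        have hcz : (c : ℤ) ≠ 0 := by exact_mod_cast hc0.ne'
        have e : ((a : ℚ) / (c : ℚ)) = ((a : ℤ) : ℚ) / ((c : ℤ) : ℚ) := by push_cast; rfl
        constructor
        · rcases Nat.eq_zero_or_pos a with h0 | h0
          · subst h0; simp
          · have hd : (((a : ℚ) / (c : ℚ)).num) ∣ (a : ℤ) := by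
              rw [e, ← Rat.divInt_eq_div]; exact Rat.num_dvd _ hcz
            have := Int.le_of_dvd (by exact_mod_cast h0) hd
            have hnn : 0 ≤ ((a : ℚ) / (c : ℚ)).num := Rat.num_nonneg.mpr (by positivity)
            rw [abs_of_nonneg hnn]
            exact le_trans this (by exact_mod_cast ha)
        · have hd : ((((a : ℚ) / (c : ℚ)).den : ℕ) : ℤ) ∣ (c : ℤ) := by
            rw [e, ← Rat.divInt_eq_div]; exact Rat.den_dvd _ _
          have := Int.le_of_dvd (by exact_mod_cast hc0) hd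
          exact le_trans (by exact_mod_cast this) hc'
      intro i k
      fin_cases i <;> fin_cases k
      · have := key (T ^ 10) s hspos e10 (le_trans hs9' e9)
        simpa [b] using this
      · have := key j (T ^ 10 * s) (by positivity) hj'.le e19
        simpa [b] using this
      · have := key 0 1 (by norm_num) (Nat.zero_le _) e1
        simpa [b] using this
      · have := key s (T ^ 10) (by positivity) (le_trans hs9' e9) e10
        simpa [b] using this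
    have hfin : {t : ℕ × ℕ | 1 ≤ t.1 ∧ t.1 ≤ T ^ 9 ∧ t.2 < T ^ 20 ∧
            ∃ b : Matrix.SpecialLinearGroup (Fin 2) ℚ,
              (b : Matrix (Fin 2) (Fin 2) ℚ) =
                !![(T : ℚ) ^ 10 / t.1, (t.2 : ℚ) / ((T : ℚ) ^ 10 * t.1);
                  0, (t.1 : ℚ) / (T : ℚ) ^ 10] ∧
              ∃ h ∈ H, h ≠ 1 ∧ h ≠ -1 ∧
                ∀ i j : Fin 2,
                  |(((b * h * b⁻¹ : Matrix.SpecialLinearGroup (Fin 2) ℚ) :
                    Matrix (Fin 2) (Fin 2) ℚ) i j).num| ≤ (T : ℤ) ∧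
                  (((b * h * b⁻¹ : Matrix.SpecialLinearGroup (Fin 2) ℚ) :
                    Matrix (Fin 2) (Fin 2) ℚ) i j).den ≤ T}.Finite := by
      refine Set.Finite.subset
        (Finset.finite_toSet (Finset.Icc 1 (T ^ 9) ×ˢ Finset.range (T ^ 20))) ?_
      rintro ⟨s, j⟩ ⟨a1, a2, a3, -⟩
      rw [Finset.mem_coe, Finset.mem_product, Finset.mem_Icc, Finset.mem_range]
      exact ⟨⟨a1, a2⟩, a3⟩
    have hle := Set.ncard_le_ncard hsub hfin
    rw [Set.ncard_coe_finset, Finset.card_product, Nat.card_Icc, Finset.card_range] at hle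
    have e29 : (T ^ 9 + 1 - 1) * T ^ 20 = T * T ^ 28 := by
      rw [Nat.add_sub_cancel]; ring
    rw [e29] at hle
    have hpos28 : 0 < T ^ 28 := Nat.pow_pos hTpos
    have : T * T ^ 28 ≤ 300 * T ^ 28 := le_trans hle hc
    have := Nat.le_of_mul_le_mul_right this hpos28
    omega
  refine ⟨?_, h2, h3⟩
  rintro ⟨F, hF, hF1, hF2, h⟩
  apply h2
  have : ∃ B : ℕ, ∀ p ∈ F, ∀ i j : Fin 2,
      |((p : Matrix (Fin 2) (Fin 2) ℚ) i j).num| ≤ (B : ℤ) ∧
        ((p : Matrix (Fin 2) (Fin 2) ℚ) i j).den ≤ B := by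
    classical
    let w : Matrix.SpecialLinearGroup (Fin 2) ℚ → ℕ := fun p => ∑ i : Fin 2, ∑ j : Fin 2,
      (((p : Matrix (Fin 2) (Fin 2) ℚ) i j).num.natAbs +
        ((p : Matrix (Fin 2) (Fin 2) ℚ) i j).den)
    refine ⟨∑ p ∈ hF.toFinset, w p, fun q hq' i j => ?_⟩
    have h1 : w q ≤ ∑ p ∈ hF.toFinset, w p :=
      Finset.single_le_sum (f := w) (fun _ _ => Nat.zero_le _) (hF.mem_toFinset.mpr hq')
    have h2 : ((q : Matrix (Fin 2) (Fin 2) ℚ) i j).num.natAbs +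
        ((q : Matrix (Fin 2) (Fin 2) ℚ) i j).den ≤ w q := by
      refine le_trans ?_ (Finset.single_le_sum (f := fun i : Fin 2 => ∑ j : Fin 2,
        (((q : Matrix (Fin 2) (Fin 2) ℚ) i j).num.natAbs +
          ((q : Matrix (Fin 2) (Fin 2) ℚ) i j).den)) (fun _ _ => Nat.zero_le _)
          (Finset.mem_univ i))
      exact Finset.single_le_sum (f := fun j : Fin 2 =>
        (((q : Matrix (Fin 2) (Fin 2) ℚ) i j).num.natAbs +
          ((q : Matrix (Fin 2) (Fin 2) ℚ) i j).den)) (fun _ _ => Nat.zero_le _)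
          (Finset.mem_univ j)
    constructor
    · rw [Int.abs_eq_natAbs]
      exact_mod_cast (by omega : ((q : Matrix (Fin 2) (Fin 2) ℚ) i j).num.natAbs ≤
        ∑ p ∈ hF.toFinset, w p)
    · omega
  obtain ⟨B, hB⟩ := this
  intro N
  refine ⟨max N B, le_max_left _ _, fun b hb0 _ => ?_⟩
  obtain ⟨h0, h0H, hp⟩ := h b hb0
  refine ⟨h0, h0H, ?_, ?_, fun i j => ?_⟩
  · rintro rfl
    apply hF1
    simpa using hp
  · rintro rfl
    apply hF2
    simpa using hp
  · obtain ⟨a, c⟩ := hB _ hp i j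
    exact ⟨le_trans a (by exact_mod_cast le_max_right _ _), le_trans c (le_max_right _ _)⟩

end Pool.Agent.Results.MP_21c19e_al.ConfinedBorel
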