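import Mathlib
import Pool.Agent.Lib.MP_21c19e_al.Final

/-!
# Zariski-dense subgroups of SL2(Q) without finite quotients: non-cyclic unipotent subgroups

Let `H` be a Zariski-dense subgroup of `SL2(Q)` without nontrivial finite quotients (the hypotheses
are stated exactly as in the problem). If `H` contains a subgroup `U` consisting of unipotent
matrices (matrices of trace two) and `U` is not cyclic, then `H` is all of `SL2(Q)`.
-/

set_option autoImplicit false

namespace Pool.Agent.Results.MP_21c19e_al.NoncyclicUnipotents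

theorem result :
    ∀ H : Subgroup (Matrix.SpecialLinearGroup (Fin 2) ℚ),
      (∀ p : MvPolynomial (Fin 2 × Fin 2) ℚ,
        (∀ g ∈ H, MvPolynomial.eval
            (fun ij : Fin 2 × Fin 2 => (g : Matrix (Fin 2) (Fin 2) ℚ) ij.1 ij.2) p = 0) →
        ∀ g : Matrix.SpecialLinearGroup (Fin 2) ℚ, MvPolynomial.eval
            (fun ij : Fin 2 × Fin 2 => (g : Matrix (Fin 2) (Fin 2) ℚ) ij.1 ij.2) p = 0) →
      (∀ N : Subgroup ↥H, N.Normal → N.FiniteIndex → N = ⊤) →
      (∃ U : Subgroup (Matrix.SpecialLinearGroup (Fin 2) ℚ), U ≤ H ∧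
        (∀ u ∈ U, (u : Matrix (Fin 2) (Fin 2) ℚ).trace = 2) ∧ ¬ IsCyclic U) →
      H = ⊤ := by
  rintro H hZ hq ⟨U, hUH, hU, hcyc⟩
  by_contra hne
  exact hcyc (Pool.Agent.MP_21c19e_al.cyclic_or_top H hZ hq hne U hUH hU)

end Pool.Agent.Results.MP_21c19e_al.NoncyclicUnipotents
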