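import Mathlib
import Pool.Agent.Lib.MP_21c19e_al.GrowU6

/-!
# Zariski-dense subgroups of SL2(Q) without finite quotients: a uniform growth gap

For every `ε > 0` there is a constant `C` such that for every proper subgroup `H` of `SL2(Q)` which is
Zariski-dense and has no nontrivial finite quotients (the hypotheses are stated exactly as in the
problem), for all `x, y` in `SL2(Q)` and all `X ≥ 1`, the set `x H y` contains at most `C * X ^ (2 + ε)`
elements of height at most `X`, that is, elements `g` such that for some `1 ≤ n ≤ X` the entries of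
`n g` are integers of absolute value at most `X`. The constant depends on `ε` only.
-/

set_option autoImplicit false

namespace Pool.Agent.Results.MP_21c19e_al.UniformGrowth

theorem result :
    ∀ ε : ℝ, 0 < ε → ∃ C : ℝ,
      ∀ H : Subgroup (Matrix.SpecialLinearGroup (Fin 2) ℚ),
      (∀ p : MvPolynomial (Fin 2 × Fin 2) ℚ,
        (∀ g ∈ H, MvPolynomial.eval
            (fun ij : Fin 2 × Fin 2 => (g : Matrix (Fin 2) (Fin 2) ℚ) ij.1 ij.2) p = 0) →
        ∀ g : Matrix.SpecialLinearGroup (Fin 2) ℚ, MvPolynomial.eval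
            (fun ij : Fin 2 × Fin 2 => (g : Matrix (Fin 2) (Fin 2) ℚ) ij.1 ij.2) p = 0) →
      (∀ N : Subgroup ↥H, N.Normal → N.FiniteIndex → N = ⊤) →
      H ≠ ⊤ →
      ∀ x y : Matrix.SpecialLinearGroup (Fin 2) ℚ, ∀ X : ℕ, 1 ≤ X →
        ((Set.ncard {g : Matrix.SpecialLinearGroup (Fin 2) ℚ |
          (∃ h ∈ H, g = x * h * y) ∧
          ∃ n : ℕ, 1 ≤ n ∧ n ≤ X ∧ ∀ i j : Fin 2, ∃ a : ℤ, |a| ≤ (X : ℤ) ∧
            (n : ℚ) * (g : Matrix (Fin 2) (Fin 2) ℚ) i j = a} : ℕ) : ℝ) ≤
          C * (X : ℝ) ^ (2 + ε) := by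
  intro ε hε
  exact Pool.Agent.MP_21c19e_al.Conf.ugrow_main ε hε

end Pool.Agent.Results.MP_21c19e_al.UniformGrowth
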